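import Pool.Agent.Lib.MP_9488bf_co.RcFinal

theorem Pool.Agent.Results.MP_9488bf_co.ApproxRectangles.result
    (γ : Circle → ℂ) (hc : Continuous γ) (hi : Function.Injective γ) (t : ℝ) (ht : 0 < t)
    (ε : ℝ) (hε : 0 < ε) :
    ∃ p1 ∈ Set.range γ, ∃ p2 ∈ Set.range γ, ∃ p3 ∈ Set.range γ, ∃ p4 ∈ Set.range γ, ∃ w : ℂ,
      w ≠ 0 ∧ ‖p2 - p1 - w‖ ≤ ε * ‖w‖ ∧ ‖p3 - p1 - w - Complex.I * t * w‖ ≤ ε * ‖w‖ ∧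
        ‖p4 - p1 - Complex.I * t * w‖ ≤ ε * ‖w‖ :=
  Pool.Agent.Lib.MP_9488bf_co.Rc.approx_rect γ hc hi t ht ε hε
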